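import Pool.Agent.Q173.OG.Vec

/-!
# Strings which are not centred, and adapted bases
-/

set_option autoImplicit false

open Module TensorProduct

namespace Pool.Agent.Q173.OG

universe u v w

open Pool.Agent.Y163.MW Pool.Agent.Q173.OS Pool.Agent.Q57.WM

section

variable {Ω : Type w} [Field Ω] {V : Type v} [AddCommGroup V] [Module Ω V]

/-- `N ^ a` is a bijection from `gr a` to `gr (-a)`. -/
def IsoAt (gr : ℤ → Submodule Ω V) (N : Module.End Ω V) (a : ℕ) : Prop :=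
  (∀ x ∈ gr a, (N ^ a) x = 0 → x = 0) ∧ ∀ y ∈ gr (-(a : ℤ)), ∃ x ∈ gr a, (N ^ a) x = y

end

variable {Ω : Type w} [Field Ω] {R R' R'' : WCoh.{v, w} Ω}

lemma WCoh.W_le_tot (m : ℕ) (c : ℤ) : R.W m c ≤ R.tot c := le_iSup (fun m => R.W m c) m

lemma WCoh.IsW.indep_deg (hR : R.IsW) (c : ℤ) : iSupIndep (fun m : ℕ => R.W m c) :=
  hR.indep.comp (f := fun m : ℕ => (m, c)) (fun _ _ h => (Prod.mk.inj h).1)

lemma WCoh.IsW.indep_wt (hR : R.IsW) (m : ℕ) : iSupIndep (R.W m) :=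
  hR.indep.comp (f := fun c : ℤ => (m, c)) (fun _ _ h => (Prod.mk.inj h).2)

lemma WCoh.tot_eq (c : ℤ) : R.tot c = ⨆ (p : ℕ × ℤ) (_ : p.2 = c), R.W p.1 p.2 := by
  apply le_antisymm
  · refine iSup_le fun m => ?_
    exact le_iSup₂_of_le (m, c) rfl le_rfl
  · refine iSup₂_le fun p hp => ?_
    subst hp
    exact le_iSup (fun m => R.W m p.2) p.1

lemma WCoh.IsW.indep_tot (hR : R.IsW) : iSupIndep R.tot := by
  have h := iSupIndep_fib hR.indep (fun p : ℕ × ℤ => p.2)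
  have e : R.tot = fun j : ℤ => ⨆ (p : ℕ × ℤ) (_ : p.2 = j), R.W p.1 p.2 := by
    funext j
    exact WCoh.tot_eq j
  rw [e]
  exact h

lemma WCoh.IsW.internal (hR : R.IsW) : DirectSum.IsInternal R.tot := by
  apply DirectSum.isInternal_submodule_of_iSupIndep_of_iSup_eq_top hR.indep_tot
  rw [eq_top_iff, ← hR.sup]
  exact iSup_le fun p => (WCoh.W_le_tot p.1 p.2).trans (le_iSup R.tot p.2)

lemma WCoh.IsW.N_tot (hR : R.IsW) (c : ℤ) : ∀ x ∈ R.tot c, R.N x ∈ R.tot (c - 2) := by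
  intro x hx
  have h : R.tot c ≤ (R.tot (c - 2)).comap R.N := by
    refine iSup_le fun m => ?_
    intro y hy
    exact WCoh.W_le_tot m _ (hR.map m c y hy)
  exact h hx

lemma WCoh.IsW.dec {c : ℤ} {x : R.V} (hx : x ∈ R.tot c) : ∃ (f : ℕ →₀ R.V),
    (∀ m, f m ∈ R.W m c) ∧ ∀ s : Finset ℕ, f.support ⊆ s → ∑ m ∈ s, f m = x := by
  obtain ⟨f, hf, hfx⟩ := (Submodule.mem_iSup_iff_exists_finsupp _ _).1 hx
  refine ⟨f, hf, fun s hs => ?_⟩
  rw [← hfx, Finsupp.sum]
  symm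
  refine Finset.sum_subset hs fun i _ hi => ?_
  exact Finsupp.notMem_support_iff.1 hi

lemma WCoh.IsW.zero_of_sum (hR : R.IsW) {c : ℤ} {s : Finset ℕ} {f : ℕ → R.V}
    (hf : ∀ m, f m ∈ R.W m c) (h : ∑ m ∈ s, f m = 0) : ∀ m ∈ s, f m = 0 := by
  classical
  have := hR.indep_deg c
  rw [iSupIndep_iff_finsetSum_eq_zero_imp_eq_zero] at this
  exact this s f (fun m _ => hf m) h

/-- Bijectivity in every degree and on the whole cohomology. -/
theorem isoAt_tot (hR : R.IsW) (a : ℕ) :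
    IsoAt R.tot R.N a ↔ ∀ m, IsoAt (R.W m) R.N a := by
  classical
  have hNk : ∀ (m : ℕ) (c : ℤ), ∀ x ∈ R.W m c, (R.N ^ a) x ∈ R.W m (c - 2 * a) :=
    fun m c x hx => hR.Npow hx a
  constructor
  · intro h m
    refine ⟨fun x hx h0 => h.1 x (WCoh.W_le_tot m _ hx) h0, fun y hy => ?_⟩
    obtain ⟨x, hx, hxy⟩ := h.2 y (WCoh.W_le_tot m _ hy)
    obtain ⟨f, hf, hfx⟩ := WCoh.IsW.dec hx
    refine ⟨f m, hf m, ?_⟩
    have h1 : ∑ i ∈ insert m f.support, ((R.N ^ a) (f i) - if i = m then y else 0) = 0 := by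
      rw [Finset.sum_sub_distrib, Finset.sum_ite_eq' (insert m f.support) m (fun _ => y),
        if_pos (Finset.mem_insert_self m _), ← map_sum, hfx _ (Finset.subset_insert _ _), hxy,
        sub_self]
    have h2 := hR.zero_of_sum (c := -(a : ℤ)) ?_ h1 m (Finset.mem_insert_self m _)
    · rw [if_pos rfl, sub_eq_zero] at h2
      exact h2
    · intro i
      refine Submodule.sub_mem _ ?_ ?_
      · have := hNk i _ _ (hf i)
        rwa [show (a : ℤ) - 2 * a = -(a : ℤ) by ring] at this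
      · split_ifs with hi
        · rw [hi]
          exact hy
        · exact Submodule.zero_mem _
  · intro h
    refine ⟨fun x hx h0 => ?_, fun y hy => ?_⟩
    · obtain ⟨f, hf, hfx⟩ := WCoh.IsW.dec hx
      rw [← hfx f.support (Finset.Subset.refl _), map_sum] at h0
      rw [← hfx f.support (Finset.Subset.refl _)]
      refine Finset.sum_eq_zero fun i hi => ?_
      exact (h i).1 _ (hf i) (hR.zero_of_sum (fun i => hNk i _ _ (hf i)) h0 i hi)
    · obtain ⟨f, hf, hfx⟩ := WCoh.IsW.dec hy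
      choose g hg hg' using fun i => (h i).2 (f i) (hf i)
      refine ⟨∑ i ∈ f.support, g i, Submodule.sum_mem _ fun i _ => WCoh.W_le_tot i _ (hg i), ?_⟩
      rw [map_sum, ← hfx f.support (Finset.Subset.refl _)]
      exact Finset.sum_congr rfl fun i _ => hg' i

/-- The conjecture in all degrees. -/
def WCoh.Pure (R : WCoh.{v, w} Ω) : Prop := ∀ m, Centred (R.W m) R.N

/-- The conjecture in all degrees in the range above `k`. -/
def WCoh.Above (R : WCoh.{v, w} Ω) (k : ℕ) : Prop := ∀ m, PureAbove (R.W m) R.N k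

lemma pure_tot (hR : R.IsW) : Centred R.tot R.N ↔ R.Pure := by
  constructor
  · intro h m a
    exact (isoAt_tot hR a).1 (h a) m
  · intro h a
    exact (isoAt_tot hR a).2 fun m => h m a

lemma above_tot (hR : R.IsW) {k : ℕ} (h : R.Above k) : PureAbove R.tot R.N k :=
  fun a ha => (isoAt_tot hR a).2 fun m => h m a ha

/-- If the conjecture fails and the weights of the whole cohomology are symmetric, there is a string
with positive centre. -/
theorem exists_bad' (hR : R.IsW) (hsym : ∀ c, finrank Ω (R.tot c) = finrank Ω (R.tot (-c)))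
    (h : ¬ R.Pure) : ∃ (j : ℕ) (c : ℤ) (l : ℕ), 0 < c ∧ (∀ k, R.Above k → c + l ≤ k) ∧
      R.Str j c l := by
  have := hR.finite
  obtain ⟨S⟩ := Pool.Agent.Y153.MW.stA Ω R.V R.tot R.N hR.internal hR.N_tot
  rw [← pure_tot hR, Pool.Agent.Y614.MW.stF Ω R.V _ _ hR.internal S] at h
  obtain ⟨s, hs⟩ := exists_pos S hR.indep_tot hsym h
  have hk' : ∀ k, R.Above k → S.top s ≤ k := by
    intro k hk
    have := (pureAbove_iff hR.internal S k).1 (above_tot hR hk) s
    omega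
  have hb : ∀ (k : ℕ) (hk : k < S.len s + 1), (R.N ^ k) (S.b ⟨s, 0⟩) = S.b ⟨s, ⟨k, hk⟩⟩ := by
    intro k
    induction k with
    | zero => intro _; rfl
    | succ k ih =>
      intro hk
      rw [pow_succ', Module.End.mul_apply, ih (by omega)]
      exact S.succ s ⟨k, by omega⟩
  have hv : S.b ⟨s, 0⟩ ∈ R.tot (S.top s) := by simpa using S.mem s 0
  have h0 : (R.N ^ (S.len s + 1)) (S.b ⟨s, 0⟩) = 0 := by
    rw [pow_succ', Module.End.mul_apply, hb (S.len s) (by omega)]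
    exact S.last s
  have h1 : (R.N ^ S.len s) (S.b ⟨s, 0⟩) ≠ 0 := by
    rw [hb (S.len s) (by omega)]
    exact S.b.ne_zero _
  obtain ⟨f, hf, hfx⟩ := WCoh.IsW.dec hv
  have h2 : ∀ i, (R.N ^ (S.len s + 1)) (f i) = 0 := by
    intro i
    rw [← hfx f.support (Finset.Subset.refl _), map_sum] at h0
    by_cases hi : i ∈ f.support
    · exact hR.zero_of_sum (fun i => hR.Npow (hf i) _) h0 i hi
    · rw [Finsupp.notMem_support_iff.1 hi, map_zero]
  obtain ⟨i, hi⟩ : ∃ i, (R.N ^ S.len s) (f i) ≠ 0 := by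
    by_contra hcon
    push Not at hcon
    apply h1
    rw [← hfx f.support (Finset.Subset.refl _), map_sum]
    exact Finset.sum_eq_zero fun i _ => hcon i
  refine ⟨i, S.top s - S.len s, S.len s, by omega, fun k hk => by have := hk' k hk; omega,
    f i, ?_, h2 i, hi⟩
  rw [sub_add_cancel]
  exact hf i

/-- There is a basis of the cohomology which consists of weight vectors of weights `a i` for a
representation of `sl(2)` with lowering operator `N` and of excesses `a i`. -/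
def WCoh.Ad (R : WCoh.{v, w} Ω) {I : Type} (a : I → ℤ) : Prop :=
  ∃ (b : Basis I Ω R.V) (e h : Module.End Ω R.V), IsSl2 R.N b a e h ∧ ∀ i, b i ∈ R.tot (a i)

lemma kun_tot {κ : R.V ⊗[Ω] R'.V ≃ₗ[Ω] R''.V} (hκ : WKun R R' R'' κ)
    {c c' : ℤ} {x : R.V} {y : R'.V} (hx : x ∈ R.tot c) (hy : y ∈ R'.tot c') :
    κ (x ⊗ₜ y) ∈ R''.tot (c + c') := by
  have h2 : R.tot c ≤ (R''.tot (c + c')).comap
      (κ.toLinearMap ∘ₗ (TensorProduct.mk Ω R.V R'.V).flip y) := by
    refine iSup_le fun m z hz => ?_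
    have h3 : R'.tot c' ≤ (R''.tot (c + c')).comap
        (κ.toLinearMap ∘ₗ (TensorProduct.mk Ω R.V R'.V) z) := by
      refine iSup_le fun n t ht => ?_
      exact WCoh.W_le_tot (m + n) _ (hκ.mem _ _ _ _ _ _ hz ht)
    exact h3 hy
  exact h2 hx

lemma WCoh.Ad.prod {I J : Type} {a : I → ℤ} {a' : J → ℤ} (H : R.Ad a) (H' : R'.Ad a')
    {κ : R.V ⊗[Ω] R'.V ≃ₗ[Ω] R''.V} (hκ : WKun R R' R'' κ) :
    R''.Ad (fun p : I × J => a p.1 + a' p.2) := by
  obtain ⟨b, e, h, hs, hb⟩ := H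
  obtain ⟨b', e', h', hs', hb'⟩ := H'
  have h1 := Pool.Agent.Y210.MW.t_B3 Ω R.V R'.V R.N I b a e h R'.N J b' a' e' h' hs hs'
  have h2 := h1.map κ (N' := R''.N) (fun x => hκ.N x)
  refine ⟨_, _, _, h2, fun p => ?_⟩
  rw [Basis.map_apply, Basis.tensorProduct_apply]
  exact kun_tot hκ (hb p.1) (hb' p.2)

lemma ad_of_pure [CharZero Ω] (hR : R.IsW) (h : R.Pure) :
    ∃ (I : Type) (_ : Finite I) (a : I → ℤ), R.Ad a := by
  have := hR.finite
  obtain ⟨S⟩ := Pool.Agent.Y153.MW.stA Ω R.V R.tot R.N hR.internal hR.N_tot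
  have h1 := (Pool.Agent.Y614.MW.stF Ω R.V _ _ hR.internal S).1 ((pure_tot hR).2 h)
  obtain ⟨e, h', hs⟩ := Pool.Agent.Y664.MW.t_B2 Ω R.V R.tot R.N S
  refine ⟨_, inferInstance, _, S.b, e, h', hs, fun p => ?_⟩
  have := S.mem' p
  unfold Strings.wt at this
  rwa [h1 p.1] at this

lemma WCoh.Ad.bound [CharZero Ω] (hR : R.IsW) {I : Type} [Finite I] {a : I → ℤ}
    (H : R.Ad a) (j : ℕ) : R.Bd j 0 := by
  have := Fintype.ofFinite I
  obtain ⟨b, e, h, hs, hb⟩ := H
  intro c x hc hx hN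
  have h1 : x ∈ R.tot c := WCoh.W_le_tot j c hx
  rw [gr_eq_span hR.indep_tot b a hb c] at h1
  obtain ⟨n, rfl⟩ : ∃ n : ℕ, c = n + 1 := ⟨(c - 1).toNat, by omega⟩
  have h2 : h x = (((n + 1 : ℕ) : ℕ) : Ω) • x := by
    clear hN hx
    induction h1 using Submodule.span_induction with
    | mem y hy =>
      obtain ⟨i, hi, rfl⟩ := hy
      rw [hs.wt, show a i = (n : ℤ) + 1 from hi]
      push_cast
      rfl
    | zero => simp
    | add y z _ _ hy hz => rw [map_add, hy, hz, smul_add]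
    | smul t y _ hy => rw [map_smul, hy, smul_comm]
  refine (Pool.Agent.Y141.MW.stL Ω R.V R.N I b a e h hs (n + 1)).1 x h2 ?_
  rw [pow_succ, Module.End.mul_apply, hN, map_zero]

lemma WCoh.Bd.mono {j : ℕ} {B B' : ℤ} (h : R.Bd j B) (hB : B ≤ B') : R.Bd j B' :=
  fun c x hc hx hN => h c x (by omega) hx hN

end Pool.Agent.Q173.OG
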