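import Pool.Agent.Q173.OS.Main

/-!
# Cohomology with a decomposition by weights
-/

set_option autoImplicit false

open Module TensorProduct

namespace Pool.Agent.Q173.OG

universe u v w

open Pool.Agent.Y163.MW

/-- A graded vector space `V = ⨁ H^m` with a decomposition of every `H^m` into the parts `W m c` (of
weight `m + c`) and an operator `N`. -/
structure WCoh (Ω : Type w) [Field Ω] where
  /-- the cohomology -/
  V : Type v
  [addCommGroup : AddCommGroup V]
  [module : Module Ω V]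
  /-- the part of weight `m + c` of `H^m` -/
  W : ℕ → ℤ → Submodule Ω V
  /-- the monodromy operator -/
  N : Module.End Ω V

attribute [instance] WCoh.addCommGroup WCoh.module

variable {Ω : Type w} [Field Ω]

/-- `V` is the direct sum of the `W m c`, and `N` maps `W m c` to `W m (c - 2)`. -/
structure WCoh.IsW (R : WCoh.{v, w} Ω) : Prop where
  finite : Module.Finite Ω R.V
  indep : iSupIndep (fun p : ℕ × ℤ => R.W p.1 p.2)
  sup : ⨆ p : ℕ × ℤ, R.W p.1 p.2 = ⊤
  map : ∀ m c, ∀ x ∈ R.W m c, R.N x ∈ R.W m (c - 2)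

/-- The Künneth formula. -/
structure WKun (R R' R'' : WCoh.{v, w} Ω) (κ : R.V ⊗[Ω] R'.V ≃ₗ[Ω] R''.V) : Prop where
  mem : ∀ m n c c' x y, x ∈ R.W m c → y ∈ R'.W n c' → κ (x ⊗ₜ y) ∈ R''.W (m + n) (c + c')
  leib : ∀ x y, R''.N (κ (x ⊗ₜ y)) = κ (R.N x ⊗ₜ y) + κ (x ⊗ₜ R'.N y)

/-- The part of excess `c` of the whole cohomology. -/
def WCoh.tot (R : WCoh.{v, w} Ω) (c : ℤ) : Submodule Ω R.V := ⨆ m, R.W m c

/-- `H^j` contains a vector of excess `c + l` which generates a string of length `l`. -/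
def WCoh.Str (R : WCoh.{v, w} Ω) (j : ℕ) (c : ℤ) (l : ℕ) : Prop :=
  ∃ v ∈ R.W j (c + l), (R.N ^ (l + 1)) v = 0 ∧ (R.N ^ l) v ≠ 0

/-- The kernel of `N` on `H^j` has no parts of excess `> B`. -/
def WCoh.Bd (R : WCoh.{v, w} Ω) (j : ℕ) (B : ℤ) : Prop :=
  ∀ (c : ℤ) (x : R.V), B < c → x ∈ R.W j c → R.N x = 0 → x = 0

end Pool.Agent.Q173.OG
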