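import Pool.Agent.Q173.OG.Rigid

/-!
# The weight filtration
-/

set_option autoImplicit false

open Module TensorProduct

namespace Pool.Agent.Q173.OG

universe u v w

open Pool.Agent.Y143 Pool.Agent.Y163.MW Pool.Agent.Y163.MW.Coh Pool.Agent.Y136.UB Pool.Agent.Q173.OS
  Pool.Agent.Q57.WM

section

variable {Ω : Type w} [Field Ω]

/-- The part of weight at most `k` of `H^j`. -/
def WCoh.Pf (R : WCoh.{v, w} Ω) (j : ℕ) (k : ℤ) : Submodule Ω R.V :=
  ⨆ (c : ℤ) (_ : (j : ℤ) + c ≤ k), R.W j c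

variable {R : WCoh.{v, w} Ω}

lemma WCoh.W_le_Pf {j : ℕ} {c k : ℤ} (h : (j : ℤ) + c ≤ k) : R.W j c ≤ R.Pf j k :=
  le_iSup₂_of_le c h le_rfl

lemma WCoh.Pf_mono {j : ℕ} {k k' : ℤ} (h : k ≤ k') : R.Pf j k ≤ R.Pf j k' :=
  iSup₂_le fun _ hc => WCoh.W_le_Pf (hc.trans h)

lemma WCoh.Pf_step {j : ℕ} {c : ℤ} {x : R.V} (hx : x ∈ R.Pf j (j + c)) :
    ∃ y ∈ R.W j c, ∃ z ∈ R.Pf j (j + c - 1), x = y + z := by
  have h : R.Pf j (j + c) ≤ R.W j c ⊔ R.Pf j (j + c - 1) := by
    refine iSup₂_le fun c' hc' => ?_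
    rcases eq_or_ne c' c with rfl | hne
    · exact le_sup_left
    · exact (WCoh.W_le_Pf (by omega)).trans le_sup_right
  obtain ⟨y, hy, z, hz, hyz⟩ := Submodule.mem_sup.1 (h hx)
  exact ⟨y, hy, z, hz, hyz.symm⟩

lemma WCoh.IsW.disj (hR : R.IsW) {j : ℕ} {c k : ℤ} (h : k < j + c) {x : R.V} (hx : x ∈ R.W j c)
    (hx' : x ∈ R.Pf j k) : x = 0 := by
  have h1 := iSupIndep_def.1 (hR.indep_wt j) c
  refine Submodule.disjoint_def.1 h1 x hx ?_
  refine (?_ : R.Pf j k ≤ _) hx'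
  exact iSup₂_le fun c' hc' => le_iSup₂_of_le c' (by omega) le_rfl

lemma WCoh.IsW.Npow_Pf (hR : R.IsW) {j : ℕ} {k : ℤ} {x : R.V} (hx : x ∈ R.Pf j k) (e : ℕ) :
    (R.N ^ e) x ∈ R.Pf j (k - 2 * e) := by
  have h : R.Pf j k ≤ (R.Pf j (k - 2 * e)).comap (R.N ^ e) := by
    refine iSup₂_le fun c hc y hy => ?_
    exact WCoh.W_le_Pf (by omega) (hR.Npow hy e)
  exact h hx

/-- `N ^ e` induces an isomorphism `gr^P_(j + e) H^j → gr^P_(j - e) H^j`. -/
def KatoAt {V : Type v} [AddCommGroup V] [Module Ω V] (P : ℕ → ℤ → Submodule Ω V)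
    (N : Module.End Ω V) (j e : ℕ) : Prop :=
  (∀ x ∈ P j (j + e), (N ^ e) x ∈ P j (j - e - 1) → x ∈ P j (j + e - 1)) ∧
    ∀ y ∈ P j (j - e), ∃ x ∈ P j (j + e), y - (N ^ e) x ∈ P j (j - e - 1)

theorem katoAt_iff (hR : R.IsW) (j a : ℕ) : KatoAt R.Pf R.N j a ↔ IsoAt (R.W j) R.N a := by
  constructor
  · rintro ⟨h1, h2⟩
    constructor
    · intro x hx h0
      refine hR.disj (k := j + a - 1) (by omega) hx (h1 x (WCoh.W_le_Pf le_rfl hx) ?_)
      rw [h0]
      exact Submodule.zero_mem _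
    · intro y hy
      obtain ⟨x, hx, hxy⟩ := h2 y (WCoh.W_le_Pf (by omega) hy)
      obtain ⟨z, hz, t, ht, rfl⟩ := WCoh.Pf_step hx
      refine ⟨z, hz, ?_⟩
      have h3 : (R.N ^ a) t ∈ R.Pf j (j - a - 1) := by
        have := hR.Npow_Pf ht a
        rwa [show (j : ℤ) + a - 1 - 2 * a = j - a - 1 by ring] at this
      have h4 : y - (R.N ^ a) z ∈ R.Pf j (j - a - 1) := by
        have : y - (R.N ^ a) z = (y - (R.N ^ a) (z + t)) + (R.N ^ a) t := by
          rw [map_add]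
          abel
        rw [this]
        exact Submodule.add_mem _ hxy h3
      have h5 : y - (R.N ^ a) z ∈ R.W j (-(a : ℤ)) := by
        refine Submodule.sub_mem _ hy ?_
        have := hR.Npow hz a
        rwa [show (a : ℤ) - 2 * a = -(a : ℤ) by ring] at this
      have h6 := hR.disj (k := j - a - 1) (by omega) h5 h4
      exact (sub_eq_zero.1 h6).symm
  · rintro ⟨h1, h2⟩
    constructor
    · intro x hx hxN
      obtain ⟨z, hz, t, ht, rfl⟩ := WCoh.Pf_step hx
      have h3 : (R.N ^ a) t ∈ R.Pf j (j - a - 1) := by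
        have := hR.Npow_Pf ht a
        rwa [show (j : ℤ) + a - 1 - 2 * a = j - a - 1 by ring] at this
      have h4 : (R.N ^ a) z ∈ R.Pf j (j - a - 1) := by
        have : (R.N ^ a) z = (R.N ^ a) (z + t) - (R.N ^ a) t := by
          rw [map_add]
          abel
        rw [this]
        exact Submodule.sub_mem _ hxN h3
      have h5 : (R.N ^ a) z ∈ R.W j (-(a : ℤ)) := by
        have := hR.Npow hz a
        rwa [show (a : ℤ) - 2 * a = -(a : ℤ) by ring] at this
      have h6 := h1 z hz (hR.disj (k := j - a - 1) (by omega) h5 h4)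
      rw [h6, zero_add]
      exact ht
    · intro y hy
      obtain ⟨z, hz, t, ht, rfl⟩ := WCoh.Pf_step (c := -(a : ℤ)) (by
        rwa [show (j : ℤ) + -(a : ℤ) = j - a by ring])
      obtain ⟨x, hx, hxz⟩ := h2 z hz
      refine ⟨x, WCoh.W_le_Pf le_rfl hx, ?_⟩
      rw [hxz, add_sub_cancel_left]
      rwa [show (j : ℤ) + -(a : ℤ) - 1 = j - a - 1 by ring] at ht

theorem kato_iff (hR : R.IsW) : (∀ j e : ℕ, 1 ≤ e → KatoAt R.Pf R.N j e) ↔ R.Pure := by
  constructor
  · intro h j a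
    rcases Nat.eq_zero_or_pos a with rfl | ha
    · exact ⟨fun x _ h0 => by simpa using h0, fun y hy => ⟨y, by simpa using hy, by simp⟩⟩
    · exact (katoAt_iff hR j a).1 (h j a ha)
  · intro h j e _
    exact (katoAt_iff hR j e).2 (h j e)

theorem kato_above_iff (hR : R.IsW) (k : ℕ) :
    (∀ j e : ℕ, k < e → KatoAt R.Pf R.N j e) ↔ R.Above k :=
  ⟨fun h j a ha => (katoAt_iff hR j a).1 (h j a ha),
    fun h j e he => (katoAt_iff hR j e).2 (h j e he)⟩

theorem bd_iff_Pf (hR : R.IsW) {S : Submodule Ω R.V} {j : ℕ} (hS : ⨆ c, R.W j c = S) (B : ℤ) :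
    R.Bd j B ↔ ∀ x ∈ S, R.N x = 0 → x ∈ R.Pf j (j + B) := by
  classical
  constructor
  · intro h x hx hN
    rw [← hS] at hx
    obtain ⟨f, hf, hfx⟩ := (Submodule.mem_iSup_iff_exists_finsupp _ _).1 hx
    have hind := hR.indep_wt j
    have h1 : ∀ c ∈ f.support, R.N (f c) = 0 := by
      have h2 : iSupIndep (fun c => R.W j (c - 2)) :=
        hind.comp (f := fun c : ℤ => c - 2) (fun a b hab => by simpa using hab)
      rw [iSupIndep_iff_finsetSum_eq_zero_imp_eq_zero] at h2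
      refine h2 f.support (fun c => R.N (f c)) (fun c _ => hR.map j c _ (hf c)) ?_
      rw [← map_sum, show ∑ c ∈ f.support, f c = x from hfx, hN]
    rw [← hfx, Finsupp.sum]
    refine Submodule.sum_mem _ fun c hc => ?_
    by_cases hcB : B < c
    · rw [h c (f c) hcB (hf c) (h1 c hc)]
      exact Submodule.zero_mem _
    · exact WCoh.W_le_Pf (by omega) (hf c)
  · intro h c x hc hx hN
    refine hR.disj (k := j + B) (by omega) hx (h x ?_ hN)
    rw [← hS]
    exact le_iSup (R.W j) c hx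

end

/-- The cohomology of a class `C` of log schemes over a log point, with the weight filtrations `P`:
`P X j k` is the subspace `P_k H^j(X)`. -/
structure LogTheory (C : Type u) (Ω : Type w) [Field Ω] extends PTheory.{u, v, w} C Ω where
  /-- the weight filtration -/
  P : ∀ X : C, ℕ → ℤ → Submodule Ω (H X).V

/-- The known properties: those of `PTheory.IsKnown`, and `P_k H^j` is the sum of the generalized
eigenspaces of the Frobenius on `H^j` for the Weil numbers of weight `≤ k`. -/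
structure LogTheory.IsKnown {C : Type u} {Ω : Type w} [Field Ω] [CharZero Ω]
    (T : LogTheory.{u, v, w} C Ω) (q : ℕ) : Prop where
  known : T.toPTheory.IsKnown q
  weight : ∀ X j k, T.P X j k = ⨆ (c : ℤ) (_ : (j : ℤ) + c ≤ k), (T.H X).exc q j c

section

variable {C : Type u} {Ω : Type w} [Field Ω] [CharZero Ω] [IsAlgClosed Ω]
  {T : LogTheory.{u, v, w} C Ω} {q : ℕ}

/-- `Ker N ∩ H^j(X) ⊆ P_(j + B) H^j(X)` for all `j`. -/
def LogTheory.Cyc (T : LogTheory.{u, v, w} C Ω) (X : C) (B : ℤ) : Prop :=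
  ∀ (j : ℕ), ∀ x ∈ (T.H X).gr j, (T.H X).N x = 0 → x ∈ T.P X j (j + B)

/-- Kato's conjecture for `X`: for all `j` and all `e ≥ 1` the map
`N ^ e : gr^P_(j + e) H^j(X) → gr^P_(j - e) H^j(X)` is an isomorphism. -/
def LogTheory.Kato (T : LogTheory.{u, v, w} C Ω) (X : C) : Prop :=
  ∀ j e : ℕ, 1 ≤ e → KatoAt (T.P X) (T.H X).N j e

/-- Kato's conjecture for `X` in the range `e > k`. -/
def LogTheory.KatoAbove (T : LogTheory.{u, v, w} C Ω) (X : C) (k : ℕ) : Prop :=
  ∀ j e : ℕ, k < e → KatoAt (T.P X) (T.H X).N j e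

/-- The known properties of the log scheme `E` (for instance a cycle of projective lines, the
degenerate elliptic curve): `H^0(E)` contains an element `≠ 0` fixed by the Frobenius and killed by
`N`, Kato's conjecture holds for `E`, and `N ≠ 0`, `N ^ 2 = 0` on `H^1(E)`. -/
structure LogTheory.IsTestCurve (T : LogTheory.{u, v, w} C Ω) (E : C) : Prop where
  unit : ∃ u ∈ (T.H E).gr 0, u ≠ 0 ∧ (T.H E).N u = 0 ∧ (T.H E).F u = u
  kato : T.Kato E
  ne : ∃ x ∈ (T.H E).gr 1, (T.H E).N x ≠ 0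
  sq : ∀ x ∈ (T.H E).gr 1, (T.H E).N ((T.H E).N x) = 0

variable (hq : 1 < q) (hT : T.IsKnown q)
include hq hT

lemma LogTheory.P_eq (X : C) : T.P X = (toW (T.H X) q).Pf := by
  funext j k
  exact hT.weight X j k

lemma LogTheory.kato_iff (X : C) : T.Kato X ↔ ∀ m, (T.H X).MWPure q m := by
  rw [← pure_toW hq (hT.known.pre X), ← OG.kato_iff (isW_toW hq (hT.known.pre X)),
    ← T.P_eq hq hT X]
  rfl

lemma LogTheory.katoAbove_iff (X : C) (k : ℕ) :
    T.KatoAbove X k ↔ ∀ m, WMAbove (T.H X) q m k := by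
  have h := kato_above_iff (isW_toW hq (hT.known.pre X)) k
  rw [← T.P_eq hq hT X] at h
  exact h

lemma LogTheory.cyc_iff (X : C) (B : ℤ) : T.Cyc X B ↔ InvBound (T.H X) q B := by
  refine forall_congr' fun j => ?_
  rw [← bd_toW hq (hT.known.pre X), bd_iff_Pf (isW_toW hq (hT.known.pre X))
    (P.iSup_exc (hT.known.pre X) j)]
  rw [hT.weight X j]
  rfl

lemma LogTheory.isTest {E : C} (h : T.IsTestCurve E) : IsTest (T.H E) q where
  unit := h.unit
  pure := (T.kato_iff hq hT E).1 h.kato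
  ne := h.ne
  sq := h.sq

end

end Pool.Agent.Q173.OG
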