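import Pool.Agent.Q173.OG.Pre

/-!
# Classes of varieties closed under products
-/

set_option autoImplicit false

open Module TensorProduct

namespace Pool.Agent.Q173.OG

universe u v w

open Pool.Agent.Y143 Pool.Agent.Y163.MW Pool.Agent.Y136.UB Pool.Agent.Q173.OS Pool.Agent.Q57.WM

section general

variable {Ω : Type w} [Field Ω] {C : Type u} {H : C → WCoh.{v, w} Ω} {prod : C → C → C}

/-- The products `X × E^a`. -/
def stk (prod : C → C → C) (X E : C) : ℕ → C
  | 0 => X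
  | a + 1 => prod (stk prod X E a) E

/-- The powers `Y^(n + 1)`. -/
def pw (prod : C → C → C) (Y : C) : ℕ → C
  | 0 => Y
  | n + 1 => prod Y (pw prod Y n)

/-- The Künneth formula holds for all products. -/
def Kun (H : C → WCoh.{v, w} Ω) (prod : C → C → C) : Prop :=
  ∀ X Y, ∃ κ, WKun (H X) (H Y) (H (prod X Y)) κ

variable (hH : ∀ X, (H X).IsW) (hk : Kun H prod)
include hH hk

lemma str_stk [CharZero Ω] {X E : C} {e u : (H E).V} (hu : IsOne (H E) e u) :
    ∀ (A j l : ℕ) (c : ℤ), (H X).Str j c l → l ≤ A → (H (stk prod X E A)).Str (j + l) c 0 := by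
  have key : ∀ (A i j l : ℕ) (c : ℤ), (H X).Str j c (l + i) → i ≤ A →
      (H (stk prod X E A)).Str (j + i) c l := by
    intro A
    induction A with
    | zero =>
      intro i j l c h hi
      obtain rfl : i = 0 := by omega
      exact h
    | succ A ih =>
      intro i j l c h hi
      obtain ⟨κ, hκ⟩ := hk (stk prod X E A) E
      rcases Nat.lt_or_ge A i with h1 | h1
      · obtain ⟨i, rfl⟩ : ∃ i', i = i' + 1 := ⟨i - 1, by omega⟩
        have h2 := ih i j (l + 1) c (by rwa [show l + 1 + i = l + (i + 1) by ring]) (by omega)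
        exact h2.down (hH _) (hH _) hκ hu
      · have h2 := ih i j l c h h1
        have h3 := h2.keep hκ hu.e_mem hu.e_ne hu.e_N
        rwa [add_zero, add_zero] at h3
  intro A j l c h hl
  exact key A l j 0 c (by rwa [zero_add]) hl

omit hH in
lemma str_pw {Y : C} {j : ℕ} {c : ℤ} (h : (H Y).Str j c 0) (n : ℕ) :
    (H (pw prod Y n)).Str ((n + 1) * j) ((n + 1) * c) 0 := by
  induction n with
  | zero => simpa [pw] using h
  | succ n ih =>
    obtain ⟨κ, hκ⟩ := hk Y (pw prod Y n)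
    have h3 : (H (pw prod Y (n + 1))).Str (j + (n + 1) * j) (c + (n + 1) * c) 0 :=
      h.zero_prod hκ ih
    rwa [show j + (n + 1) * j = (n + 1 + 1) * j by ring,
      show c + ((n : ℤ) + 1) * c = (((n + 1 : ℕ) : ℤ) + 1) * c by push_cast; ring] at h3

omit hH in
lemma ad_stk {X E : C} {I J : Type} [Finite I] [Finite J] {a : I → ℤ} {b : J → ℤ}
    (hX : (H X).Ad a) (hE : (H E).Ad b) (A : ℕ) :
    ∃ (I' : Type) (_ : Finite I') (a' : I' → ℤ), (H (stk prod X E A)).Ad a' := by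
  induction A with
  | zero => exact ⟨I, inferInstance, a, hX⟩
  | succ A ih =>
    obtain ⟨I', _, a', ha'⟩ := ih
    obtain ⟨κ, hκ⟩ := hk (stk prod X E A) E
    exact ⟨I' × J, inferInstance, _, ha'.prod hE hκ⟩

omit hH in
lemma ad_pw {Y : C} {I : Type} [Finite I] {a : I → ℤ} (hY : (H Y).Ad a) (n : ℕ) :
    ∃ (I' : Type) (_ : Finite I') (a' : I' → ℤ), (H (pw prod Y n)).Ad a' := by
  induction n with
  | zero => exact ⟨I, inferInstance, a, hY⟩
  | succ n ih =>
    obtain ⟨I', _, a', ha'⟩ := ih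
    obtain ⟨κ, hκ⟩ := hk Y (pw prod Y n)
    exact ⟨I × I', inferInstance, _, hY.prod ha' hκ⟩

theorem bd_self [CharZero Ω] {X : C} (h : (H X).Pure) (j : ℕ) : (H X).Bd j 0 := by
  obtain ⟨I, _, a, ha⟩ := ad_of_pure (hH X) h
  exact ha.bound (hH X) j

theorem bd_stk [CharZero Ω] {X E : C} (h : (H X).Pure) (hE : (H E).Pure) (A n j : ℕ) :
    (H (pw prod (stk prod X E A) n)).Bd j 0 := by
  obtain ⟨I, _, a, ha⟩ := ad_of_pure (hH X) h
  obtain ⟨J, _, b, hb⟩ := ad_of_pure (hH E) hE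
  obtain ⟨I', _, a', ha'⟩ := ad_stk hk ha hb A
  obtain ⟨I'', _, a'', ha''⟩ := ad_pw hk ha' n
  exact ha''.bound (hH _) j

theorem bd_square [CharZero Ω] {X : C} (h : (H X).Pure) (n j : ℕ) :
    (H (pw prod (prod X X) n)).Bd j 0 := by
  obtain ⟨I, _, a, ha⟩ := ad_of_pure (hH X) h
  obtain ⟨κ, hκ⟩ := hk X X
  obtain ⟨I'', _, a'', ha''⟩ := ad_pw hk (ha.prod ha hκ) n
  exact ha''.bound (hH _) j

theorem pure_of_stk [CharZero Ω] {X E : C} {e u : (H E).V} (hu : IsOne (H E) e u)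
    (hsym : ∀ c, finrank Ω ((H X).tot c) = finrank Ω ((H X).tot (-c))) {k : ℕ}
    (hab : (H X).Above (k + 1)) (n : ℕ)
    (h : ∀ j, (H (pw prod (stk prod X E k) n)).Bd j n) : (H X).Pure := by
  by_contra hcon
  obtain ⟨m, c, l, hc, hcl, hs⟩ := exists_bad' (hH X) hsym hcon
  replace hcl := hcl _ hab
  have h1 := str_pw hk (str_stk hH hk hu k m l c hs (by push_cast at hcl; omega)) n
  have h2 := h1.le (h _)
  nlinarith

theorem pure_of_square' [CharZero Ω] {X : C}
    (hsym : ∀ c, finrank Ω ((H X).tot c) = finrank Ω ((H X).tot (-c))) (n : ℕ)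
    (h : ∀ j, (H (pw prod (prod X X) n)).Bd j (2 * n + 1)) : (H X).Pure := by
  by_contra hcon
  obtain ⟨m, c, l, hc, -, hs⟩ := exists_bad' (hH X) hsym hcon
  obtain ⟨κ, hκ⟩ := hk X X
  have h1 := str_pw hk (hs.square (hH X) hκ) n
  have h2 := h1.le (h _)
  nlinarith

end general

section weil

variable {Ω : Type w} [Field Ω] [CharZero Ω] {R R' R'' : Coh.{v, w} Ω} {q : ℕ}

/-- The decomposition by weights. -/
abbrev toW (R : Coh.{v, w} Ω) (q : ℕ) : WCoh.{v, w} Ω where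
  V := R.V
  W := R.exc q
  N := R.N

lemma isW_toW [IsAlgClosed Ω] (hq : 1 < q) (hR : IsPre R q) : (toW R q).IsW where
  finite := hR.finite
  indep := P.indep_exc hq hR
  sup := by
    show (⨆ p : ℕ × ℤ, R.exc q p.1 p.2) = ⊤
    rw [eq_top_iff, ← hR.isInternal.submodule_iSup_eq_top]
    refine iSup_le fun m => ?_
    rw [← P.iSup_exc hR m]
    exact iSup_le fun c => le_iSup (fun p : ℕ × ℤ => R.exc q p.1 p.2) (m, c)
  map := fun m c x hx => P.N_exc hq hR m c x hx

lemma kun_toW (hq : 0 < q) {κ : R.V ⊗[Ω] R'.V ≃ₗ[Ω] R''.V} (hκ : IsKunneth R R' R'' κ) :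
    WKun (toW R q) (toW R' q) (toW R'' q) κ where
  mem := fun _ _ _ _ _ _ hx hy => kunneth_exc hq hκ hx hy
  leib := fun x y => hκ.monodromy x y

lemma pure_toW [IsAlgClosed Ω] (hq : 1 < q) (hR : IsPre R q) :
    (toW R q).Pure ↔ ∀ m, R.MWPure q m :=
  forall_congr' fun m => (P.mwPure_iff hq hR m).symm

lemma bd_toW [IsAlgClosed Ω] (hq : 1 < q) (hR : IsPre R q) (j : ℕ) (B : ℤ) :
    (toW R q).Bd j B ↔ InvBoundDeg R q j B := by
  have := hR.finite
  constructor
  · intro h α x hx hx0 hN hF w hw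
    by_contra hcon
    push Not at hcon
    refine hx0 (h (w - j) x (by omega) ?_ hN)
    refine Submodule.mem_iSup_of_mem α (Submodule.mem_iSup_of_mem ?_ ?_)
    · rwa [show (j : ℤ) + (w - j) = w by ring]
    · refine Submodule.mem_inf.2 ⟨hx, mem_gen.2 ⟨1, ?_⟩⟩
      rw [pow_one, LinearMap.sub_apply, Module.algebraMap_end_apply, hF, sub_self]
  · intro h c v hc hv h0
    by_contra h1
    let S : Submodule Ω R.V := R.exc q j c ⊓ LinearMap.ker R.N
    have hS : ∀ x ∈ S, R.F x ∈ S := by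
      intro x hx
      obtain ⟨hx1, hx2⟩ := Submodule.mem_inf.1 hx
      refine Submodule.mem_inf.2 ⟨P.F_exc hR j c x hx1, ?_⟩
      rw [LinearMap.mem_ker] at hx2 ⊢
      rw [hR.N_F x, hx2, map_zero, smul_zero]
    have hnt : Nontrivial S := ⟨⟨⟨v, Submodule.mem_inf.2 ⟨hv, LinearMap.mem_ker.2 h0⟩⟩, 0,
      fun h => h1 (congrArg Subtype.val h)⟩⟩
    obtain ⟨α, hα⟩ := Module.End.exists_eigenvalue (R.F.restrict hS)
    obtain ⟨x, hx⟩ := hα.exists_hasEigenvector
    have hx1 := (Submodule.mem_inf.1 x.2)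
    have hFx : R.F x = α • (x : R.V) := congrArg Subtype.val hx.apply_eq_smul
    have hx0 : (x : R.V) ≠ 0 := fun h => hx.2 (Subtype.ext h)
    have h2 := h α x (Coh.exc_le j c hx1.1) hx0 (LinearMap.mem_ker.1 hx1.2) hFx _
      (P.eigen_exc hq hR hx1.1 hx0 hFx)
    omega

end weil

end Pool.Agent.Q173.OG
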