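import Pool.Agent.Q173.OG.Bad

/-!
# The decomposition by weights of a Galois representation without duality
-/

set_option autoImplicit false

open Module TensorProduct

namespace Pool.Agent.Q173.OG

universe u v w

open Pool.Agent.Y143 Pool.Agent.Y163.MW Pool.Agent.Y136.UB Pool.Agent.Y163.MW.Coh

/-- The known properties of the Frobenius `F` and of `N`, without duality: `F` and `N` respect the
degrees, `N F = q F N`, the eigenvalues of `F` are `q`-Weil numbers. -/
structure IsPre {Ω : Type w} [Field Ω] [CharZero Ω] (R : Coh.{v, w} Ω) (q : ℕ) : Prop where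
  finite : Module.Finite Ω R.V
  isInternal : DirectSum.IsInternal R.gr
  F_gr : Respects R.gr R.F
  N_gr : Respects R.gr R.N
  N_F : Twisted (q : Ω) R.F R.N
  weil : HasWeights q R.gr R.F

namespace P

variable {Ω : Type w} [Field Ω] [CharZero Ω] {R : Coh.{v, w} Ω} {q : ℕ}

lemma indep_pc (hR : IsPre R q) : iSupIndep R.pc :=
  iSupIndep_inf hR.isInternal.submodule_iSupIndep (Module.End.independent_maxGenEigenspace R.F)

lemma gr_eq [IsAlgClosed Ω] (hR : IsPre R q) (m : ℕ) : R.gr m = ⨆ α, R.pc (m, α) := by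
  have := hR.finite
  exact Submodule.eq_iSup_inf_genEigenspace ⊤ (hR.F_gr m)
    (Module.End.iSup_maxGenEigenspace_eq_top R.F)

lemma exists_weil (hR : IsPre R q) {m : ℕ} {α : Ω} {x : R.V} (hx : x ∈ R.pc (m, α))
    (h0 : x ≠ 0) : ∃ w : ℤ, IsWeilNumber q w α := by
  obtain ⟨y, hy, hy0, hFy⟩ := exists_eigen_of_gen (hR.F_gr m) (Submodule.mem_inf.1 hx).1
    (Submodule.mem_inf.1 hx).2 h0
  exact hR.weil m α y hy hy0 hFy

lemma pc_eq_bot (hR : IsPre R q) {m : ℕ} {α : Ω} (h : ¬ ∃ w : ℤ, IsWeilNumber q w α) :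
    R.pc (m, α) = ⊥ := by
  rw [Submodule.eq_bot_iff]
  intro x hx
  by_contra h0
  exact h (exists_weil hR hx h0)

lemma exc_eq (hq : 1 < q) (hR : IsPre R q) (m : ℕ) (c : ℤ) :
    R.exc q m c = ⨆ (p : ℕ × Ω) (_ : (p.1, wtf q p.2 - p.1) = (m, c)), R.pc p := by
  apply le_antisymm
  · refine iSup₂_le fun α hα => ?_
    refine le_iSup₂_of_le (m, α) ?_ le_rfl
    rw [wtf_eq hq hα]
    simp
  · refine iSup₂_le fun p hp => ?_
    obtain ⟨m', α⟩ := p
    simp only [Prod.mk.injEq] at hp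
    obtain ⟨rfl, hc⟩ := hp
    by_cases h : ∃ w : ℤ, IsWeilNumber q w α
    · obtain ⟨w, hw⟩ := h
      rw [wtf_eq hq hw] at hc
      refine le_iSup₂_of_le α ?_ le_rfl
      rwa [show (m' : ℤ) + c = w by omega]
    · rw [pc_eq_bot hR h]
      exact bot_le

lemma indep_exc (hq : 1 < q) (hR : IsPre R q) :
    iSupIndep (fun p : ℕ × ℤ => R.exc q p.1 p.2) := by
  have h := iSupIndep_fib (indep_pc hR) (fun p : ℕ × Ω => (p.1, wtf q p.2 - (p.1 : ℤ)))
  have e : (fun p : ℕ × ℤ => R.exc q p.1 p.2) = fun j : ℕ × ℤ =>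
      ⨆ (p : ℕ × Ω) (_ : (p.1, wtf q p.2 - (p.1 : ℤ)) = j), R.pc p := by
    funext j
    exact exc_eq hq hR j.1 j.2
  rw [e]
  exact h

lemma indep_exc_deg (hq : 1 < q) (hR : IsPre R q) (m : ℕ) : iSupIndep (R.exc q m) :=
  (indep_exc hq hR).comp (f := fun c : ℤ => (m, c)) (fun c c' h => (Prod.mk.inj h).2)

lemma iSup_exc [IsAlgClosed Ω] (hR : IsPre R q) (m : ℕ) : ⨆ c, R.exc q m c = R.gr m := by
  apply le_antisymm
  · exact iSup_le fun c => exc_le m c
  · rw [gr_eq hR m]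
    refine iSup_le fun α => ?_
    by_cases h : ∃ w : ℤ, IsWeilNumber q w α
    · obtain ⟨w, hw⟩ := h
      refine le_iSup_of_le (w - m) (le_iSup₂_of_le α ?_ le_rfl)
      rwa [show (m : ℤ) + (w - m) = w by ring]
    · rw [pc_eq_bot hR h]
      exact bot_le

lemma indep_tot (hq : 1 < q) (hR : IsPre R q) : iSupIndep (R.tot q) := by
  have h := iSupIndep_fib (indep_exc hq hR) (fun p : ℕ × ℤ => p.2)
  have e : R.tot q = fun j : ℤ => ⨆ (p : ℕ × ℤ) (_ : p.2 = j), R.exc q p.1 p.2 := by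
    funext j
    exact tot_eq j
  rw [e]
  exact h

lemma isInternal_tot [IsAlgClosed Ω] (hq : 1 < q) (hR : IsPre R q) :
    DirectSum.IsInternal (R.tot q) := by
  apply DirectSum.isInternal_submodule_of_iSupIndep_of_iSup_eq_top (indep_tot hq hR)
  rw [eq_top_iff, ← hR.isInternal.submodule_iSup_eq_top]
  refine iSup_le fun m => ?_
  rw [← iSup_exc hR m]
  exact iSup_mono fun c => exc_le_tot m c

lemma F_exc (hR : IsPre R q) (m : ℕ) (c : ℤ) : ∀ x ∈ R.exc q m c, R.F x ∈ R.exc q m c := by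
  intro x hx
  have h : R.exc q m c ≤ (R.exc q m c).comap R.F := by
    refine iSup₂_le fun α hα => ?_
    intro y hy
    refine Submodule.mem_iSup_of_mem α (Submodule.mem_iSup_of_mem hα ?_)
    obtain ⟨h1, h2⟩ := Submodule.mem_inf.1 hy
    refine Submodule.mem_inf.2 ⟨hR.F_gr m y h1, ?_⟩
    exact gen_map R.F (fun _ => rfl) h2
  exact h hx

lemma N_exc (hq : 1 < q) (hR : IsPre R q) (m : ℕ) (c : ℤ) :
    ∀ x ∈ R.exc q m c, R.N x ∈ R.exc q m (c - 2) := by
  intro x hx
  have hq0 : (q : Ω) ≠ 0 := Nat.cast_ne_zero.2 (by omega)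
  have h : R.exc q m c ≤ (R.exc q m (c - 2)).comap R.N := by
    refine iSup₂_le fun α hα => ?_
    intro y hy
    have h3 := hα.twist (by omega : q ≠ 0) (-1)
    rw [show (m : ℤ) + c + 2 * (-1) = m + (c - 2) by ring] at h3
    refine Submodule.mem_iSup_of_mem _ (Submodule.mem_iSup_of_mem h3 ?_)
    obtain ⟨h1, h2⟩ := Submodule.mem_inf.1 hy
    refine Submodule.mem_inf.2 ⟨hR.N_gr m y h1, ?_⟩
    have h4 : y ∈ ((q : Ω) ^ (-1 : ℤ) • R.F).maxGenEigenspace ((q : Ω) ^ (-1 : ℤ) * α) := by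
      obtain ⟨k, hk⟩ := mem_gen.1 h2
      refine mem_gen.2 ⟨k, ?_⟩
      have e : (q : Ω) ^ (-1 : ℤ) • R.F - algebraMap Ω (Module.End Ω R.V) ((q : Ω) ^ (-1 : ℤ) * α) =
          (q : Ω) ^ (-1 : ℤ) • (R.F - algebraMap Ω (Module.End Ω R.V) α) := by
        ext z
        simp only [LinearMap.sub_apply, LinearMap.smul_apply, Module.algebraMap_end_apply,
          smul_sub, smul_smul]
      rw [e, smul_pow, LinearMap.smul_apply, hk, smul_zero]
    refine gen_map R.N (fun z => ?_) h4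
    rw [LinearMap.smul_apply, map_smul, hR.N_F, smul_smul, zpow_neg_one, inv_mul_cancel₀ hq0,
      one_smul]
  exact h hx

lemma N_tot (hq : 1 < q) (hR : IsPre R q) (c : ℤ) :
    ∀ x ∈ R.tot q c, R.N x ∈ R.tot q (c - 2) := by
  intro x hx
  have h : R.tot q c ≤ (R.tot q (c - 2)).comap R.N := by
    refine iSup_le fun m => ?_
    intro y hy
    exact exc_le_tot m _ (N_exc hq hR m c y hy)
  exact h hx

lemma eigen_exc (hq : 1 < q) (hR : IsPre R q) {m : ℕ} {c : ℤ} {α : Ω} {x : R.V}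
    (hx : x ∈ R.exc q m c) (h0 : x ≠ 0) (hF : R.F x = α • x) : IsWeilNumber q (m + c) α := by
  have hxm := exc_le m c hx
  obtain ⟨w, hw⟩ := hR.weil m α x hxm h0 hF
  have h1 : x ∈ R.exc q m (w - m) := by
    refine Submodule.mem_iSup_of_mem α (Submodule.mem_iSup_of_mem ?_ ?_)
    · rwa [show (m : ℤ) + (w - m) = w by ring]
    · refine Submodule.mem_inf.2 ⟨hxm, mem_gen.2 ⟨1, ?_⟩⟩
      rw [pow_one, LinearMap.sub_apply, Module.algebraMap_end_apply, hF, sub_self]
  have h2 : c = w - m := by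
    by_contra hne
    have := (indep_exc_deg hq hR m).pairwiseDisjoint hne
    exact h0 (Submodule.disjoint_def.1 this x hx h1)
  rw [h2, show (m : ℤ) + (w - m) = w by ring]
  exact hw


/-- mw purity means that the weight decomposition is centred. -/
lemma mwPure_iff [IsAlgClosed Ω] (hq : 1 < q) (hR : IsPre R q) (m : ℕ) :
    R.MWPure q m ↔ Centred (R.exc q m) R.N := by
  have := hR.finite
  exact Pool.Agent.Y48.MW.t_G Ω R.V (R.gr m) (R.exc q m) R.F R.N (q : Ω)
    (fun c α => IsWeilNumber q (m + c) α) (iSup_exc hR m) (indep_exc_deg hq hR m)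
    (F_exc hR m) (N_exc hq hR m) (Nat.cast_ne_zero.2 (by omega)) (fun x _ => hR.N_F x)
    (fun c α x hx h0 hF => eigen_exc hq hR hx h0 hF)
    (fun c c' α h h' => by have := weil_unique hq h h'; omega)

end P

end Pool.Agent.Q173.OG
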