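import Pool.Agent.Q173.OG.Main

/-!
# Poincare duality only; classes of varieties closed under products
-/

set_option autoImplicit false

open Module TensorProduct

namespace Pool.Agent.Q173.OG

universe u v w

open Pool.Agent.Y143 Pool.Agent.Y163.MW Pool.Agent.Y163.MW.Coh Pool.Agent.Y136.UB Pool.Agent.Q173.OS
  Pool.Agent.Q57.WM

/-- Poincare duality in dimension `d`: the form `B` is nondegenerate, `H^m` and `H^(m')` are
orthogonal for `m + m' ≠ 2 d`, and `B (F x, F y) = q ^ d B (x, y)`. -/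
structure IsPD {Ω : Type w} [Field Ω] {V : Type v} [AddCommGroup V] [Module Ω V] (q d : ℕ)
    (gr : ℕ → Submodule Ω V) (F : Module.End Ω V) (B : V →ₗ[Ω] V →ₗ[Ω] Ω) : Prop where
  nondeg : ∀ x, (∀ y, val B x y = 0) → x = 0
  orth : ∀ m m' x y, x ∈ gr m → y ∈ gr m' → m + m' ≠ 2 * d → val B x y = 0
  frob : ∀ x y, val B (F x) (F y) = (q : Ω) ^ d * val B x y

section

variable {Ω : Type w} [Field Ω] [CharZero Ω] [IsAlgClosed Ω] {R : Coh.{v, w} Ω} {q : ℕ}

/-- Symmetry of the weights on the whole cohomology. -/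
lemma tot_neg_of_pd (hq : 1 < q) (hR : IsPre R q) {d : ℕ} {B : R.V →ₗ[Ω] R.V →ₗ[Ω] Ω}
    (hB : IsPD q d R.gr R.F B) (c : ℤ) :
    finrank Ω (R.tot q c) = finrank Ω (R.tot q (-c)) := by
  have := hR.finite
  have key : ∀ c : ℤ, finrank Ω (R.tot q c) ≤ finrank Ω (R.tot q (-c)) := by
    intro c
    have hB0 : ∀ x, (∀ y, B x y = 0) → x = 0 := hB.nondeg
    have hB1 : ∀ m m' x y, x ∈ R.gr m → y ∈ R.gr m' → m + m' ≠ 2 * d → B x y = 0 := hB.orth
    have hB2 : ∀ x y, x ∈ (⊤ : Submodule Ω R.V) → y ∈ (⊤ : Submodule Ω R.V) →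
        B (R.F x) (R.F y) = (q : Ω) ^ d * B x y := fun x y _ _ => hB.frob x y
    let φ : R.tot q c →ₗ[Ω] Module.Dual Ω (R.tot q (-c)) :=
      { toFun := fun x => (B x).comp (R.tot q (-c)).subtype
        map_add' := fun x y => by ext z; simp
        map_smul' := fun a x => by ext z; simp }
    have hφ : Function.Injective φ := by
      rw [← LinearMap.ker_eq_bot, LinearMap.ker_eq_bot']
      intro x hx
      apply Subtype.ext
      apply hB0
      have h1 : ∀ m' c', ∀ y ∈ R.exc q m' c', B x y = 0 := by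
        intro m' c' y hy
        by_cases hc : c' = -c
        · subst hc
          exact DFunLike.congr_fun hx ⟨y, exc_le_tot m' _ hy⟩
        · have h2 : R.tot q c ≤ LinearMap.ker (B.flip y) := by
            refine iSup_le fun m => iSup₂_le fun α hα z hz => ?_
            rw [LinearMap.mem_ker, LinearMap.flip_apply]
            by_cases hm : m + m' = 2 * d
            · have h4 : R.exc q m' c' ≤ LinearMap.ker (B z) := by
                refine iSup₂_le fun β hβ t ht => ?_
                rw [LinearMap.mem_ker]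
                refine gen_orth (fun _ _ => Submodule.mem_top) hB2 ?_ Submodule.mem_top
                  Submodule.mem_top (Submodule.mem_inf.1 hz).2 (Submodule.mem_inf.1 ht).2
                intro h5
                have h6 := weil_mul (by omega) hα hβ
                rw [h5] at h6
                have h7 := weil_unique hq h6 (weil_natPow (by omega) d)
                omega
              exact LinearMap.mem_ker.1 (h4 hy)
            · exact hB1 m m' z y (Submodule.mem_inf.1 hz).1 (exc_le m' c' hy) hm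
          exact LinearMap.mem_ker.1 (h2 x.2)
      intro y
      have h8 : (⊤ : Submodule Ω R.V) ≤ LinearMap.ker (B x) := by
        rw [← hR.isInternal.submodule_iSup_eq_top]
        refine iSup_le fun m' => ?_
        rw [← P.iSup_exc hR m']
        exact iSup_le fun c' y hy => LinearMap.mem_ker.2 (h1 m' c' y hy)
      exact LinearMap.mem_ker.1 (h8 (Submodule.mem_top))
    have := LinearMap.finrank_le_finrank_of_injective hφ
    rwa [Subspace.dual_finrank_eq] at this
  apply le_antisymm (key c)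
  have := key (-c)
  rwa [neg_neg] at this

end

/-- The `ℓ`-adic cohomology of the members of a class `C` of proper smooth varieties (algebraic or
rigid-analytic) closed under products: the varieties are the elements of the type `C`, `prod` is the
product, `dim` the dimension, `H X` the cohomology with the action `F` of a geometric Frobenius lift
and the monodromy operator `N`. -/
structure PTheory (C : Type u) (Ω : Type w) [Field Ω] where
  /-- the product -/
  prod : C → C → C
  /-- the dimension -/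
  dim : C → ℕ
  /-- the cohomology -/
  H : C → Coh.{v, w} Ω

/-- The known properties: `F` and `N` respect the degrees, `N F = q F N`, the eigenvalues of `F` are
`q`-Weil numbers of integral weights, Poincare duality, Künneth formula. -/
structure PTheory.IsKnown {C : Type u} {Ω : Type w} [Field Ω] [CharZero Ω]
    (T : PTheory.{u, v, w} C Ω) (q : ℕ) : Prop where
  pre : ∀ X, IsPre (T.H X) q
  dual : ∀ X, ∃ B, IsPD q (T.dim X) (T.H X).gr (T.H X).F B
  kunneth : ∀ X Y, ∃ κ, IsKunneth (T.H X) (T.H Y) (T.H (T.prod X Y)) κ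
  dim_prod : ∀ X Y, T.dim (T.prod X Y) = T.dim X + T.dim Y

section

variable {C : Type u} {Ω : Type w} [Field Ω] [CharZero Ω] [IsAlgClosed Ω]
  {T : PTheory.{u, v, w} C Ω} {q : ℕ}

lemma isTest_one (hq : 1 < q) {R : Coh.{v, w} Ω} (hR : IsPre R q) (h : IsTest R q) :
    ∃ e u, IsOne (toW R q) e u := by
  obtain ⟨e, he, he0, he1⟩ := h.unit' hq
  obtain ⟨x, hx, hx0⟩ := h.ne
  obtain ⟨c, y, hy, hy0⟩ : ∃ (c : ℤ), ∃ y ∈ R.exc q 1 c, R.N y ≠ 0 := by
    by_contra hcon
    push Not at hcon
    apply hx0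
    have h1 : R.gr 1 ≤ LinearMap.ker R.N := by
      rw [← P.iSup_exc hR 1]
      exact iSup_le fun c y hy => LinearMap.mem_ker.2 (hcon c y hy)
    exact LinearMap.mem_ker.1 (h1 hx)
  have hC := (P.mwPure_iff hq hR 1).1 (h.pure 1)
  have h2 : R.N (R.N y) = 0 := h.sq y (exc_le 1 c hy)
  have h3 : c = 1 := by
    by_contra hne
    rcases lt_or_gt_of_ne hne with hlt | hgt
    · obtain ⟨a, ha⟩ : ∃ a : ℕ, c - 2 = -(a : ℤ) := ⟨(2 - c).toNat, by omega⟩
      have h4 := P.N_exc hq hR 1 c y hy
      rw [ha] at h4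
      obtain ⟨z, hz, hz1⟩ := (hC a).2 _ h4
      apply hy0
      rw [← hz1]
      obtain ⟨b, rfl⟩ : ∃ b, a = b + 2 := ⟨a - 2, by omega⟩
      rw [pow_add, Module.End.mul_apply]
      have : (R.N ^ 2) z = 0 := by
        rw [pow_two, Module.End.mul_apply]
        exact h.sq z (exc_le 1 _ hz)
      rw [this, map_zero]
    · obtain ⟨b, rfl⟩ : ∃ b : ℕ, c = ((b + 2 : ℕ) : ℤ) := ⟨(c - 2).toNat, by omega⟩
      apply hy0
      have h4 := (hC (b + 2)).1 y hy ?_
      · rw [h4, map_zero]
      · rw [pow_add, Module.End.mul_apply, pow_two, Module.End.mul_apply, h2, map_zero]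
  subst h3
  exact ⟨e, y, he, he0, he1, hy, hy0, h2⟩

/-- The products `X × E^a`. -/
def PTheory.stk (T : PTheory.{u, v, w} C Ω) (X E : C) (a : ℕ) : C := OG.stk T.prod X E a

/-- The powers `Y^(n + 1)`. -/
def PTheory.pw (T : PTheory.{u, v, w} C Ω) (Y : C) (n : ℕ) : C := OG.pw T.prod Y n

lemma PTheory.dim_pw (hT : T.IsKnown q) (Y : C) (n : ℕ) :
    T.dim (T.pw Y n) = (n + 1) * T.dim Y := by
  induction n with
  | zero => simp [PTheory.pw, OG.pw]
  | succ n ih =>
    have h : T.dim (T.pw Y (n + 1)) = T.dim Y + T.dim (T.pw Y n) := hT.dim_prod _ _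
    rw [h, ih]
    ring

variable (hq : 1 < q) (hT : T.IsKnown q)
include hq hT

lemma PTheory.kun : Kun (fun X => toW (T.H X) q) T.prod := by
  intro X Y
  obtain ⟨κ, hκ⟩ := hT.kunneth X Y
  exact ⟨κ, kun_toW (by omega) hκ⟩

lemma PTheory.sym (X : C) (c : ℤ) :
    finrank Ω ((toW (T.H X) q).tot c) = finrank Ω ((toW (T.H X) q).tot (-c)) := by
  obtain ⟨B, hB⟩ := hT.dual X
  exact tot_neg_of_pd hq (hT.pre X) hB c

theorem PTheory.bound_self {X : C} (h : ∀ m, (T.H X).MWPure q m) : InvBound (T.H X) q 0 :=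
  fun j => (bd_toW hq (hT.pre X) j 0).1 (bd_self (H := fun X => toW (T.H X) q)
    (fun X => isW_toW hq (hT.pre X)) (T.kun hq hT) ((pure_toW hq (hT.pre X)).2 h) j)

theorem PTheory.bound_stk {X E : C} (h : ∀ m, (T.H X).MWPure q m) (hE : IsTest (T.H E) q)
    (a n : ℕ) : InvBound (T.H (T.pw (T.stk X E a) n)) q 0 :=
  fun j => (bd_toW hq (hT.pre _) j 0).1 (OG.bd_stk (H := fun X => toW (T.H X) q)
    (fun X => isW_toW hq (hT.pre X)) (T.kun hq hT) ((pure_toW hq (hT.pre X)).2 h)
    ((pure_toW hq (hT.pre E)).2 hE.pure) a n j)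

theorem PTheory.bound_square {X : C} (h : ∀ m, (T.H X).MWPure q m) (n : ℕ) :
    InvBound (T.H (T.pw (T.prod X X) n)) q 0 :=
  fun j => (bd_toW hq (hT.pre _) j 0).1 (OG.bd_square (H := fun X => toW (T.H X) q)
    (fun X => isW_toW hq (hT.pre X)) (T.kun hq hT) ((pure_toW hq (hT.pre X)).2 h) n j)

theorem PTheory.pure_of_stk {X E : C} (hE : IsTest (T.H E) q) {k : ℕ}
    (hk : ∀ m, WMAbove (T.H X) q m (k + 1)) (n : ℕ)
    (h : InvBound (T.H (T.pw (T.stk X E k) n)) q n) : ∀ m, (T.H X).MWPure q m := by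
  obtain ⟨e, u, hu⟩ := isTest_one hq (hT.pre E) hE
  rw [← pure_toW hq (hT.pre X)]
  exact OG.pure_of_stk (H := fun X => toW (T.H X) q) (fun X => isW_toW hq (hT.pre X))
    (T.kun hq hT) hu (T.sym hq hT X) (fun m => hk m) n
    (fun j => (bd_toW hq (hT.pre _) j n).2 (h j))

theorem PTheory.pure_of_square {X : C} (n : ℕ)
    (h : InvBound (T.H (T.pw (T.prod X X) n)) q (2 * n + 1)) : ∀ m, (T.H X).MWPure q m := by
  rw [← pure_toW hq (hT.pre X)]
  exact OG.pure_of_square' (H := fun X => toW (T.H X) q) (fun X => isW_toW hq (hT.pre X))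
    (T.kun hq hT) (T.sym hq hT X) n (fun j => (bd_toW hq (hT.pre _) j _).2 (h j))

theorem PTheory.uniform :
    (∀ X : C, 1 ≤ T.dim X → ∀ m, (T.H X).MWPure q m) ↔
      ∀ ε : ℝ, 0 < ε → ∃ D : ℕ, ∀ Y : C, D ≤ T.dim Y → InvBound (T.H Y) q ⌊ε * T.dim Y⌋ := by
  constructor
  · intro h ε hε
    refine ⟨1, fun Y hY => (T.bound_self hq hT (h Y hY)).mono ?_⟩
    exact Int.floor_nonneg.2 (by positivity)
  · intro h X hX
    have hd : (0 : ℝ) < T.dim X := by exact_mod_cast hX
    obtain ⟨D, hD⟩ := h (1 / (2 * T.dim X)) (by positivity)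
    refine T.pure_of_square hq hT D ?_
    have hdim : T.dim (T.pw (T.prod X X) D) = (D + 1) * (T.dim X + T.dim X) := by
      rw [T.dim_pw hT, hT.dim_prod]
    have h1 := hD (T.pw (T.prod X X) D) (by rw [hdim]; nlinarith)
    refine h1.mono ?_
    rw [hdim]
    have h2 : (1 / (2 * (T.dim X : ℝ))) * (((D + 1) * (T.dim X + T.dim X) : ℕ) : ℝ) =
        ((D + 1 : ℕ) : ℝ) := by
      push_cast
      field_simp
      ring
    rw [h2, Int.floor_natCast]
    push_cast
    omega

end

end Pool.Agent.Q173.OG
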