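import Pool.Agent.Q173.OG.Defs

/-!
# Strings of products
-/

set_option autoImplicit false

open Module TensorProduct

namespace Pool.Agent.Q173.OG

universe u v w

open Pool.Agent.Y163.MW Pool.Agent.Q173.OS

variable {Ω : Type w} [Field Ω] {R R' R'' : WCoh.{v, w} Ω}

lemma WKun.N {κ : R.V ⊗[Ω] R'.V ≃ₗ[Ω] R''.V} (hκ : WKun R R' R'' κ) (t : R.V ⊗[Ω] R'.V) :
    R''.N (κ t) = κ (der R.N R'.N t) := by
  induction t using TensorProduct.induction_on with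
  | zero => simp
  | tmul x y =>
    rw [der_tmul, map_add]
    exact hκ.leib x y
  | add x y hx hy => rw [map_add, map_add, map_add, map_add, hx, hy]

lemma WKun.Npow {κ : R.V ⊗[Ω] R'.V ≃ₗ[Ω] R''.V} (hκ : WKun R R' R'' κ) (k : ℕ)
    (t : R.V ⊗[Ω] R'.V) : (R''.N ^ k) (κ t) = κ ((der R.N R'.N ^ k) t) := by
  induction k with
  | zero => simp
  | succ k ih =>
    rw [pow_succ', Module.End.mul_apply, ih, hκ.N, pow_succ', Module.End.mul_apply]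

lemma WCoh.IsW.Npow (hR : R.IsW) {m : ℕ} {c : ℤ} {x : R.V} (hx : x ∈ R.W m c) (k : ℕ) :
    (R.N ^ k) x ∈ R.W m (c - 2 * k) := by
  induction k with
  | zero => simpa using hx
  | succ k ih =>
    rw [pow_succ', Module.End.mul_apply]
    have := hR.map m _ _ ih
    rwa [show c - 2 * (k : ℤ) - 2 = c - 2 * ((k + 1 : ℕ) : ℤ) by push_cast; ring] at this

/-- A string of length one of `H^1`. -/
structure IsOne (R : WCoh.{v, w} Ω) (e u : R.V) : Prop where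
  e_mem : e ∈ R.W 0 0
  e_ne : e ≠ 0
  e_N : R.N e = 0
  mem : u ∈ R.W 1 1
  ne : R.N u ≠ 0
  sq : R.N (R.N u) = 0

lemma WCoh.Str.down [CharZero Ω] (hR : R.IsW) (hR' : R'.IsW) {κ : R.V ⊗[Ω] R'.V ≃ₗ[Ω] R''.V}
    (hκ : WKun R R' R'' κ) {j : ℕ} {c : ℤ} {l : ℕ} (h : R.Str j c (l + 1)) {e u : R'.V}
    (hu : IsOne R' e u) : R''.Str (j + 1) c l := by
  obtain ⟨v, hv, h0, h1⟩ := h
  obtain ⟨h2, h3⟩ := down_vec h0 h1 hu.sq hu.ne
  refine ⟨κ (((l + 1 : ℕ) : Ω) • (v ⊗ₜ R'.N u) - R.N v ⊗ₜ u), ?_, ?_, ?_⟩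
  · rw [map_sub, map_smul]
    refine Submodule.sub_mem _ (Submodule.smul_mem _ _ ?_) ?_
    · have := hκ.mem _ _ _ _ _ _ hv (hR'.map 1 1 u hu.mem)
      rwa [show c + ((l + 1 : ℕ) : ℤ) + (1 - 2) = c + l by push_cast; ring] at this
    · have := hκ.mem _ _ _ _ _ _ (hR.map j _ v hv) hu.mem
      rwa [show c + ((l + 1 : ℕ) : ℤ) - 2 + 1 = c + l by push_cast; ring] at this
  · rw [hκ.Npow, h2, map_zero]
  · rw [hκ.Npow]
    intro h4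
    exact h3 (κ.map_eq_zero_iff.1 h4)

lemma WCoh.Str.keep {κ : R.V ⊗[Ω] R'.V ≃ₗ[Ω] R''.V}
    (hκ : WKun R R' R'' κ) {j : ℕ} {c : ℤ} {l : ℕ} (h : R.Str j c l) {u : R'.V}
    {i : ℕ} {c' : ℤ} (hu : u ∈ R'.W i c') (hu0 : u ≠ 0) (hu1 : R'.N u = 0) :
    R''.Str (j + i) (c + c') l := by
  obtain ⟨v, hv, h0, h1⟩ := h
  refine ⟨κ (v ⊗ₜ u), ?_, ?_, ?_⟩
  · have := hκ.mem _ _ _ _ _ _ hv hu
    rwa [show c + (l : ℤ) + c' = c + c' + l by ring] at this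
  · rw [hκ.Npow, der_pow_ker _ _ _ _ hu1, h0, zero_tmul, map_zero]
  · rw [hκ.Npow, der_pow_ker _ _ _ _ hu1]
    intro h4
    exact tmul_ne_zero' h1 hu0 (κ.map_eq_zero_iff.1 h4)

lemma WCoh.Str.zero_prod {κ : R.V ⊗[Ω] R'.V ≃ₗ[Ω] R''.V}
    (hκ : WKun R R' R'' κ) {j i : ℕ} {c c' : ℤ} (h : R.Str j c 0) (h' : R'.Str i c' 0) :
    R''.Str (j + i) (c + c') 0 := by
  obtain ⟨u, hu, hu0, hu1⟩ := h'
  rw [Nat.cast_zero, add_zero] at hu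
  rw [zero_add, pow_one] at hu0
  rw [pow_zero, Module.End.one_apply] at hu1
  exact h.keep hκ hu hu1 hu0

lemma WCoh.Str.square (hR : R.IsW) {κ : R.V ⊗[Ω] R.V ≃ₗ[Ω] R''.V}
    (hκ : WKun R R R'' κ) {j : ℕ} {c : ℤ} {l : ℕ} (h : R.Str j c l) :
    R''.Str (j + j) (c + c) 0 := by
  obtain ⟨v, hv, h0, h1⟩ := h
  obtain ⟨h2, h3⟩ := pair_vec (N' := R.N) h0 h1 LinearMap.id (fun _ => rfl) h1
  refine ⟨κ (∑ i ∈ Finset.range (l + 1), (-1 : Ω) ^ i •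
    ((R.N ^ i) v ⊗ₜ[Ω] (LinearMap.id : R.V →ₗ[Ω] R.V) ((R.N ^ (l - i)) v))), ?_, ?_, ?_⟩
  rotate_left 1
  · rw [hκ.Npow, zero_add, pow_one, h2, map_zero]
  · rw [pow_zero, Module.End.one_apply]
    exact fun h4 => h3 (κ.map_eq_zero_iff.1 h4)
  · rw [map_sum]
    refine Submodule.sum_mem _ fun i hi => ?_
    rw [Finset.mem_range] at hi
    rw [map_smul]
    refine Submodule.smul_mem _ _ ?_
    have := hκ.mem _ _ _ _ _ _ (hR.Npow hv i) (hR.Npow hv (l - i))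
    rw [LinearMap.id_apply]
    rwa [show c + (l : ℤ) - 2 * (i : ℤ) + (c + l - 2 * ((l - i : ℕ) : ℤ)) = c + c + ((0 : ℕ) : ℤ) by
      push_cast [Nat.cast_sub (by omega : i ≤ l)]; ring] at this

lemma WCoh.Str.le {j : ℕ} {c : ℤ} (h : R.Str j c 0) {B : ℤ} (hB : R.Bd j B) : c ≤ B := by
  obtain ⟨v, hv, h0, h1⟩ := h
  by_contra hcon
  push Not at hcon
  apply h1
  rw [pow_zero, Module.End.one_apply]
  refine hB c v hcon (by simpa using hv) ?_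
  simpa using h0

end Pool.Agent.Q173.OG
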